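import Pool.Agent.MNT.StmtsA

set_option autoImplicit false

/-!
# Squad MNT, row CHN: from an approximate to an exact ultrametric
-/

namespace Pool.Agent.MNT.H47

open Polynomial NumberField

section chn

variable {P : Type} [Fintype P] [DecidableEq P]

/-- the graph of the pairs with `t ≤ δ` -/
def Gt (δ : P → P → ℝ) (hs : ∀ p q, δ p q = δ q p) (t : ℝ) : SimpleGraph P where
  Adj p q := p ≠ q ∧ t ≤ δ p q
  symm := ⟨fun p q h => ⟨h.1.symm, by rw [hs q p]; exact h.2⟩⟩
  loopless := ⟨fun _ h => h.1 rfl⟩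

theorem gt_path (δ : P → P → ℝ) (hs : ∀ p q, δ p q = δ q p) {c₀ : ℝ} (hc : 0 ≤ c₀)
    (hu : ∀ p q r, p ≠ q → q ≠ r → p ≠ r → min (δ p q) (δ q r) - c₀ ≤ δ p r) (t : ℝ) :
    ∀ {p q : P} (w : (Gt δ hs t).Walk p q), p ≠ q → t - ((w.length : ℝ) - 1) * c₀ ≤ δ p q := by
  intro p q w
  induction w with
  | nil =>
    intro h
    exact absurd rfl h
  | @cons p u q hadj w ih =>
    intro hpq
    have hpu : p ≠ u := hadj.1
    have htu : t ≤ δ p u := hadj.2
    rw [SimpleGraph.Walk.length_cons]
    push_cast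
    by_cases huq : u = q
    · subst huq
      have h1 : 0 ≤ ((w.length : ℝ) + 1 - 1) * c₀ := by
        have : (0 : ℝ) ≤ w.length := Nat.cast_nonneg _
        have h2 : ((w.length : ℝ) + 1 - 1) = w.length := by ring
        rw [h2]
        positivity
      linarith
    · have h1 := ih huq
      have h2 := hu p u q hpu huq hpq
      have h3 : 1 ≤ w.length := by
        rcases Nat.eq_zero_or_pos w.length with h | h
        · exact absurd (SimpleGraph.Walk.eq_of_length_eq_zero h) huq
        · exact h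
      have h4 : (1 : ℝ) ≤ w.length := by exact_mod_cast h3
      have h5 : t - ((w.length : ℝ) - 1) * c₀ ≤ min (δ p u) (δ u q) := by
        refine le_min ?_ h1
        have : 0 ≤ ((w.length : ℝ) - 1) * c₀ := mul_nonneg (by linarith) hc
        linarith
      have h6 : ((w.length : ℝ) + 1 - 1) * c₀ = ((w.length : ℝ) - 1) * c₀ + c₀ := by ring
      rw [h6]
      linarith

end chn

open Classical in
/-- Row CHN. -/
theorem chn : ChnStmt := by
  intro P _ _ δ c₀ hc hs hu
  -- the values `t` of `δ` such that `p`, `q` are connected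
  let T : P → P → Finset ℝ := fun p q =>
    (Finset.univ.image fun a : P × P => δ a.1 a.2).filter fun t => (Gt δ hs t).Reachable p q
  have hT : ∀ p q t, t ∈ T p q ↔ (∃ a b, δ a b = t) ∧ (Gt δ hs t).Reachable p q := by
    intro p q t
    show t ∈ Finset.filter _ _ ↔ _
    rw [Finset.mem_filter, Finset.mem_image]
    constructor
    · rintro ⟨⟨a, -, ha⟩, h⟩
      exact ⟨⟨a.1, a.2, ha⟩, h⟩
    · rintro ⟨⟨a, b, ha⟩, h⟩
      exact ⟨⟨(a, b), Finset.mem_univ _, ha⟩, h⟩
  have hTs : ∀ p q, T p q = T q p := by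
    intro p q
    ext t
    rw [hT, hT]
    exact and_congr_right fun _ => ⟨fun h => h.symm, fun h => h.symm⟩
  have hmem : ∀ p q, p ≠ q → δ p q ∈ T p q := by
    intro p q hpq
    rw [hT]
    refine ⟨⟨p, q, rfl⟩, ?_⟩
    have h1 : (Gt δ hs (δ p q)).Adj p q := ⟨hpq, le_rfl⟩
    exact h1.reachable
  let D : P → P → ℝ := fun p q => if h : (T p q).Nonempty then (T p q).max' h else 0
  have hD : ∀ p q, p ≠ q → D p q ∈ T p q ∧ ∀ t ∈ T p q, t ≤ D p q := by
    intro p q hpq
    have h : (T p q).Nonempty := ⟨_, hmem p q hpq⟩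
    have h1 : D p q = (T p q).max' h := dif_pos h
    rw [h1]
    exact ⟨Finset.max'_mem _ _, fun t ht => Finset.le_max' _ _ ht⟩
  have hmono : ∀ s t : ℝ, s ≤ t → ∀ p q, (Gt δ hs t).Reachable p q → (Gt δ hs s).Reachable p q := by
    intro s t hst p q h
    refine h.mono ?_
    intro a b hab
    exact ⟨hab.1, hst.trans hab.2⟩
  refine ⟨D, ?_, ?_, ?_⟩
  · intro p q
    show (if h : (T p q).Nonempty then (T p q).max' h else 0) =
      if h : (T q p).Nonempty then (T q p).max' h else 0
    simp only [hTs p q]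
  · intro p q r hpq hqr hpr
    obtain ⟨h1, -⟩ := hD p q hpq
    obtain ⟨h2, -⟩ := hD q r hqr
    apply (hD p r hpr).2
    rw [hT] at h1 h2 ⊢
    refine ⟨?_, ?_⟩
    · rcases min_choice (D p q) (D q r) with h | h
      · rw [h]
        exact h1.1
      · rw [h]
        exact h2.1
    · exact (hmono _ _ (min_le_left _ _) p q h1.2).trans (hmono _ _ (min_le_right _ _) q r h2.2)
  · intro p q hpq
    refine ⟨(hD p q hpq).2 _ (hmem p q hpq), ?_⟩
    have h1 := (hD p q hpq).1
    rw [hT] at h1
    obtain ⟨w, hw⟩ := h1.2.exists_isPath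
    have h2 := gt_path δ hs hc hu _ w hpq
    have h3 : w.length < Fintype.card P := hw.length_lt
    have h4 : (w.length : ℝ) ≤ Fintype.card P := by exact_mod_cast h3.le
    nlinarith

end Pool.Agent.MNT.H47
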