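import Pool.Agent.MNT.StmtsA

set_option autoImplicit false

/-!
# Squad MNT, row THN: a thin odd subset
-/

namespace Pool.Agent.MNT.H47

open Polynomial NumberField

theorem thn_aux {P : Type} [Fintype P] [DecidableEq P] (z : P → ℂ) (R : Finset P) (n : ℕ) :
    ∀ (S : Finset P) (δ : ℝ), S.card = n → S ⊆ R → Odd S.card → 0 < δ →
      (∀ p ∈ S, ∀ q ∈ R \ S, δ ≤ ‖z q - z p‖) →
      ∃ S' ⊆ S, ∃ p ∈ S', ∃ r : ℝ, δ / (4 * (Fintype.card P : ℝ)) ^ S.card ≤ r ∧ r ≤ δ ∧
        Odd S'.card ∧ (∀ q ∈ S', ‖z q - z p‖ ≤ r / 2) ∧ ∀ q ∈ R \ S', r ≤ ‖z q - z p‖ := by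
  induction n using Nat.strong_induction_on with
  | _ n ih =>
  intro S δ hn hSR hodd hδ hfar
  have hcard : S.card ≤ Fintype.card P := Finset.card_le_univ S
  have hSpos : 0 < S.card := hodd.pos
  obtain ⟨p, hp⟩ := Finset.card_pos.1 hSpos
  have hS1 : (1 : ℝ) ≤ S.card := by exact_mod_cast hSpos
  have hcR : (S.card : ℝ) ≤ Fintype.card P := by exact_mod_cast hcard
  have h4 : (1 : ℝ) ≤ 4 * (Fintype.card P : ℝ) := by linarith
  by_cases hall : ∀ q ∈ S, ‖z q - z p‖ ≤ δ / 2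
  · refine ⟨S, Finset.Subset.refl S, p, hp, δ, ?_, le_rfl, hodd, hall, hfar p hp⟩
    exact div_le_self hδ.le (one_le_pow₀ h4)
  push Not at hall
  obtain ⟨q₀, hq₀, hq₀'⟩ := hall
  -- the width of the annuli
  set η : ℝ := δ / (2 * S.card) with hηdef
  have hη : 0 < η := by positivity
  have hηδ : η ≤ δ := div_le_self hδ.le (by linarith)
  have hηS : δ / 2 = S.card * η := by
    rw [hηdef]
    field_simp
  let idx : P → ℕ := fun q => ⌊‖z q - z p‖ / η⌋₊
  have hidx0 : S.card ≤ idx q₀ := by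
    apply Nat.le_floor
    rw [le_div_iff₀ hη, ← hηS]
    exact hq₀'.le
  -- the empty annulus
  obtain ⟨j, hj, hjn⟩ : ∃ j ∈ Finset.range S.card, j ∉ (S.erase q₀).image idx := by
    by_contra h
    push Not at h
    have h1 : (Finset.range S.card).card ≤ ((S.erase q₀).image idx).card :=
      Finset.card_le_card h
    have h2 : ((S.erase q₀).image idx).card ≤ (S.erase q₀).card := Finset.card_image_le
    rw [Finset.card_range] at h1
    rw [Finset.card_erase_of_mem hq₀] at h2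
    omega
  rw [Finset.mem_range] at hj
  have hjne : ∀ q ∈ S, idx q ≠ j := by
    intro q hq
    by_cases hqq : q = q₀
    · rw [hqq]
      omega
    · intro h
      exact hjn (Finset.mem_image.2 ⟨q, Finset.mem_erase.2 ⟨hqq, hq⟩, h⟩)
  let A : Finset P := S.filter fun q => idx q < j
  let B : Finset P := S.filter fun q => ¬ idx q < j
  have hAB : A.card + B.card = S.card := Finset.card_filter_add_card_filter_not _
  have hA : ∀ q ∈ A, q ∈ S ∧ ‖z q - z p‖ < j * η := by
    intro q hq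
    obtain ⟨h1, h2⟩ := Finset.mem_filter.1 hq
    refine ⟨h1, ?_⟩
    have h3 : ‖z q - z p‖ / η < j := (Nat.floor_lt (by positivity)).1 h2
    rwa [div_lt_iff₀ hη] at h3
  have hB : ∀ q ∈ B, q ∈ S ∧ (j + 1) * η ≤ ‖z q - z p‖ := by
    intro q hq
    obtain ⟨h1, h2⟩ := Finset.mem_filter.1 hq
    refine ⟨h1, ?_⟩
    have h3 : j + 1 ≤ idx q := by
      have := hjne q h1
      omega
    have h4 : ((j + 1 : ℕ) : ℝ) ≤ ‖z q - z p‖ / η := (Nat.le_floor_iff (by positivity)).1 h3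
    rw [le_div_iff₀ hη] at h4
    push_cast at h4
    exact h4
  have hpA : p ∈ A := by
    refine Finset.mem_filter.2 ⟨hp, ?_⟩
    have h1 : idx p = 0 := by
      show ⌊‖z p - z p‖ / η⌋₊ = 0
      rw [sub_self, norm_zero, zero_div, Nat.floor_zero]
    have h2 := hjne p hp
    show idx p < j
    omega
  have hqB : q₀ ∈ B := by
    refine Finset.mem_filter.2 ⟨hq₀, ?_⟩
    show ¬ idx q₀ < j
    omega
  have hApos : 0 < A.card := Finset.card_pos.2 ⟨p, hpA⟩
  have hBpos : 0 < B.card := Finset.card_pos.2 ⟨q₀, hqB⟩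
  have hdist : ∀ a ∈ A, ∀ b ∈ B, η ≤ ‖z b - z a‖ := by
    intro a ha b hb
    have h1 := (hA a ha).2
    have h2 := (hB b hb).2
    have h3 : ‖z b - z p‖ ≤ ‖z b - z a‖ + ‖z a - z p‖ := by
      have h4 : z b - z p = (z b - z a) + (z a - z p) := by ring
      rw [h4]
      exact norm_add_le _ _
    nlinarith
  -- the induction step for `C = A` or `C = B`
  have hstep : ∀ C : Finset P, C ⊆ S → C.card < S.card → Odd C.card →
      (∀ a ∈ C, ∀ b ∈ S \ C, η ≤ ‖z b - z a‖) →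
      ∃ S' ⊆ S, ∃ p ∈ S', ∃ r : ℝ, δ / (4 * (Fintype.card P : ℝ)) ^ S.card ≤ r ∧ r ≤ δ ∧
        Odd S'.card ∧ (∀ q ∈ S', ‖z q - z p‖ ≤ r / 2) ∧ ∀ q ∈ R \ S', r ≤ ‖z q - z p‖ := by
    intro C hCS hCc hCo hCd
    obtain ⟨S', hS', p', hp', r, h1, h2, h3, h4', h5⟩ := ih C.card (hn ▸ hCc) C η rfl
      (hCS.trans hSR) hCo hη (by
        intro a ha b hb
        rw [Finset.mem_sdiff] at hb
        by_cases hbS : b ∈ S
        · exact hCd a ha b (Finset.mem_sdiff.2 ⟨hbS, hb.2⟩)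
        · exact hηδ.trans (hfar a (hCS ha) b (Finset.mem_sdiff.2 ⟨hb.1, hbS⟩)))
    refine ⟨S', hS'.trans hCS, p', hp', r, ?_, h2.trans hηδ, h3, h4', h5⟩
    refine le_trans ?_ h1
    have h6 : (4 * (Fintype.card P : ℝ)) ^ C.card ≤ (4 * (Fintype.card P : ℝ)) ^ (S.card - 1) :=
      pow_le_pow_right₀ h4 (by omega)
    have h7 : (4 * (Fintype.card P : ℝ)) ^ S.card =
        (4 * (Fintype.card P : ℝ)) ^ (S.card - 1) * (4 * (Fintype.card P : ℝ)) := by
      rw [← pow_succ]
      congr 1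
      omega
    rw [hηdef, div_div]
    refine div_le_div_of_nonneg_left hδ.le (by positivity) ?_
    rw [h7, mul_comm (2 * (S.card : ℝ))]
    exact mul_le_mul h6 (by linarith) (by positivity) (by positivity)
  rcases Nat.even_or_odd A.card with hAe | hAo
  · -- `B` is odd
    have hBo : Odd B.card := by
      rw [← hAB] at hodd
      exact (Nat.odd_add.1 hodd |>.not.1 (fun h => by
        exact absurd h (Nat.not_odd_iff_even.2 hAe)) |> fun h => Nat.not_even_iff_odd.1 h)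
    refine hstep B (Finset.filter_subset _ _) (by omega) hBo ?_
    intro b hb a ha
    rw [Finset.mem_sdiff] at ha
    have haA : a ∈ A := by
      by_contra h
      apply ha.2
      refine Finset.mem_filter.2 ⟨ha.1, fun h' => h (Finset.mem_filter.2 ⟨ha.1, h'⟩)⟩
    have h1 := hdist a haA b hb
    rwa [norm_sub_rev] at h1
  · refine hstep A (Finset.filter_subset _ _) (by omega) hAo ?_
    intro a ha b hb
    rw [Finset.mem_sdiff] at hb
    have hbB : b ∈ B := by
      refine Finset.mem_filter.2 ⟨hb.1, fun h' => hb.2 (Finset.mem_filter.2 ⟨hb.1, h'⟩)⟩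
    exact hdist a ha b hbB

/-- Row THN. -/
theorem thn : ThnStmt := by
  intro P _ _ z R S δ hSR hodd hδ hfar
  exact thn_aux z R S.card S δ rfl hSR hodd hδ hfar

end Pool.Agent.MNT.H47
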